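import Mathlib
import Pool.Agent.Helper610.Bohr.Basic
import Pool.Agent.X104.WI.Low2

set_option autoImplicit false

namespace Pool.Agent.Results.MP_de3d06_an.HalfThreshold

open Metric Set Filter Topology Pool.Agent.X104.WI Pool.Agent.Helper610.Bohr

/-- The Taylor coefficient `a_n = f^{(n)}(0) / n!` of `f` at the origin. -/
noncomputable def tcoef (f : ℂ → ℂ) (n : ℕ) : ℂ := iteratedDeriv n f 0 / (n.factorial : ℂ)

/-- `‖f‖_W = ∑ |a_n| ∈ [0,∞]`. -/
noncomputable def wnorm (f : ℂ → ℂ) : ENNReal := ∑' n : ℕ, ‖tcoef f n‖ₑ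

/-- The class `F_δ`: functions analytic in the unit disc with `‖f‖_W = 1` and `|f| ≥ δ` there. -/
def classF (δ : ℝ) : Set (ℂ → ℂ) :=
  {f | DifferentiableOn ℂ f (ball 0 1) ∧ wnorm f = 1 ∧ ∀ z ∈ ball (0 : ℂ) 1, δ ≤ ‖f z‖}

/-- `M(f) = ∑ |b_n|`, where `1/f = ∑ b_n z^n`. -/
noncomputable def bigM (f : ℂ → ℂ) : ENNReal := wnorm (fun z => (f z)⁻¹)

/-- `C(δ) = sup_{f ∈ F_δ} M(f)`. -/
noncomputable def bigC (δ : ℝ) : ENNReal := ⨆ f ∈ classF δ, bigM f

/-- `δ₀ = inf {δ ∈ (0,1] : C(δ) < ∞}`. -/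
noncomputable def delta0 : ℝ := sInf {δ : ℝ | 0 < δ ∧ δ ≤ 1 ∧ bigC δ < ⊤}

theorem tcoef_eq (f : ℂ → ℂ) : tcoef f = coeff f := rfl

theorem mk_mul_mk {f : ℂ → ℂ} (hf : DifferentiableOn ℂ f (ball 0 1))
    (h0 : ∀ z ∈ ball (0 : ℂ) 1, f z ≠ 0) :
    PowerSeries.mk (tcoef f) * PowerSeries.mk (tcoef fun z => (f z)⁻¹) = 1 := by
  have h1 : PS f (tcoef f) := PS.of_diff hf
  have h2 : PS (fun z => (f z)⁻¹) (tcoef fun z => (f z)⁻¹) := PS.of_diff (hf.inv h0)
  have h3 := h1.mul h2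
  have h4 : PS (fun z => f z * (f z)⁻¹) (fun n => if n = 0 then (1 : ℂ) else 0) :=
    (PS.const 1).congr fun z hz => mul_inv_cancel₀ (h0 z (by simpa using hz))
  have h5 := h3.unique h4
  ext n
  rw [PowerSeries.coeff_mul, PowerSeries.coeff_one, ← congrFun h5 n]
  simp only [PowerSeries.coeff_mk]
  rfl

theorem hasSum_of_wnorm {f : ℂ → ℂ} {c : NNReal} (h : wnorm f = c) :
    HasSum (fun n => ‖tcoef f n‖) c := by
  have h1 : ∑' n : ℕ, ‖tcoef f n‖ₑ = c := h
  have hs : Summable fun n => ‖tcoef f n‖ := by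
    rw [← tsum_enorm_ne_top_iff_summable_norm, h1]
    exact ENNReal.coe_ne_top
  have h2 : ENNReal.ofReal (∑' n, ‖tcoef f n‖) = c := by
    rw [ENNReal.ofReal_tsum_of_nonneg (fun _ => norm_nonneg _) hs, ← h1]
    simp_rw [ofReal_norm]
  have h3 : ∑' n, ‖tcoef f n‖ = c := by
    have h4 := congrArg ENNReal.toReal h2
    rw [ENNReal.toReal_ofReal (tsum_nonneg fun _ => norm_nonneg _)] at h4
    simpa using h4
  rw [← h3]
  exact hs.hasSum

theorem upper {δ : ℝ} (hδ : 1 / 2 < δ) : bigC δ < ⊤ := by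
  obtain ⟨K, hK⟩ := uniform_bound hδ
  refine lt_of_le_of_lt ?_ (ENNReal.ofReal_lt_top (r := K))
  refine iSup₂_le fun f hf => ?_
  obtain ⟨hd, hw, hlow⟩ := hf
  have h0 : ∀ z ∈ ball (0 : ℂ) 1, f z ≠ 0 := fun z hz h => by
    have := hlow z hz
    rw [h, norm_zero] at this
    linarith
  have hsum : HasSum (fun n => ‖tcoef f n‖) 1 := hasSum_of_wnorm (c := 1) (by simpa using hw)
  have hf : ∀ z : ℂ, ‖z‖ < 1 → δ ≤ ‖∑' n, tcoef f n * z ^ n‖ := by
    intro z hz
    have h1 : PS f (tcoef f) := PS.of_diff hd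
    rw [(h1 z hz).tsum_eq]
    exact hlow z (by simpa using hz)
  have hb := hK (tcoef f) (tcoef fun z => (f z)⁻¹) hsum hf (mk_mul_mk hd h0)
  show ∑' n : ℕ, ‖tcoef (fun z => (f z)⁻¹) n‖ₑ ≤ _
  refine ENNReal.tsum_le_of_sum_range_le fun T => ?_
  simp_rw [← ofReal_norm]
  rw [← ENNReal.ofReal_sum_of_nonneg fun _ _ => norm_nonneg _]
  exact ENNReal.ofReal_le_ofReal (hb T)

theorem tcoef_poly (p : Polynomial ℂ) : tcoef (fun z => p.eval z) = fun n => p.coeff n := by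
  have h1 : PS (fun z => p.eval z) (tcoef fun z => p.eval z) :=
    PS.of_diff p.differentiable.differentiableOn
  have h2 : PS (fun z => p.eval z) (fun n => p.coeff n) := by
    intro z _
    have h3 : p.eval z = ∑ n ∈ p.support, p.coeff n * z ^ n := by
      rw [Polynomial.eval_eq_sum, Polynomial.sum]
    show HasSum _ (p.eval z)
    rw [h3]
    apply hasSum_sum_of_ne_finset_zero
    intro n hn
    show p.coeff n * z ^ n = 0
    rw [Polynomial.notMem_support_iff.1 hn, zero_mul]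
  exact h1.unique h2

theorem lower {δ : ℝ} (hδ0 : 0 < δ) (hδ : δ < 1 / 2) : bigC δ = ⊤ := by
  apply ENNReal.eq_top_of_forall_nnreal_le
  intro K
  obtain ⟨p, hp1, hp2, hp3⟩ := low_poly (ε := 1 / 2 - δ) (by linarith) K
  set f : ℂ → ℂ := fun z => p.eval z with hf
  have hd : DifferentiableOn ℂ f (ball 0 1) := p.differentiable.differentiableOn
  have hlow : ∀ z ∈ ball (0 : ℂ) 1, δ ≤ ‖f z‖ := by
    intro z hz
    have h1 := hp2 z (by simpa using (mem_ball_zero_iff.1 hz).le)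
    have h2 : (1 : ℝ) / 2 - (1 / 2 - δ) = δ := by ring
    rwa [h2] at h1
  have h0 : ∀ z ∈ ball (0 : ℂ) 1, f z ≠ 0 := fun z hz h => by
    have := hlow z hz
    rw [h, norm_zero] at this
    linarith
  have hw : wnorm f = 1 := by
    show ∑' n : ℕ, ‖tcoef f n‖ₑ = 1
    rw [hf, tcoef_poly, tsum_eq_sum (s := p.support)]
    · simp_rw [← ofReal_norm]
      rw [← ENNReal.ofReal_sum_of_nonneg fun _ _ => norm_nonneg _]
      have : ∑ n ∈ p.support, ‖p.coeff n‖ = 1 := hp1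
      rw [this, ENNReal.ofReal_one]
    · intro n hn
      show ‖p.coeff n‖ₑ = 0
      rw [Polynomial.notMem_support_iff.1 hn, enorm_zero]
  have hmem : f ∈ classF δ := ⟨hd, hw, hlow⟩
  refine le_trans ?_ (le_iSup₂ (f := fun f (_ : f ∈ classF δ) => bigM f) f hmem)
  by_contra hcon
  push Not at hcon
  have hfin : bigM f ≠ ⊤ := (hcon.trans ENNReal.coe_lt_top).ne
  have hsum := hasSum_of_wnorm (f := fun z => (f z)⁻¹) (c := (bigM f).toNNReal)
    (ENNReal.coe_toNNReal hfin).symm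
  set y : W := ⟨PowerSeries.mk (tcoef fun z => (f z)⁻¹), by
    show Summable fun n => ‖PowerSeries.coeff n (PowerSeries.mk (tcoef fun z => (f z)⁻¹))‖
    simpa using hsum.summable⟩ with hy
  have hmul : ofPoly p * y = 1 := by
    apply Subtype.ext
    show (ofPoly p).1 * PowerSeries.mk (tcoef fun z => (f z)⁻¹) = 1
    have h1 : (ofPoly p).1 = PowerSeries.mk (tcoef f) := by
      ext n
      have h2 := co_ofPoly p n
      change PowerSeries.coeff n (ofPoly p).1 = _ at h2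
      rw [h2, hf, tcoef_poly, PowerSeries.coeff_mk]
    rw [h1]
    exact mk_mul_mk hd h0
  have h1 := hp3 y hmul
  have h2 : ‖y‖ = ((bigM f).toNNReal : ℝ) := by
    rw [W.norm_def, ← hsum.tsum_eq]
    apply tsum_congr
    intro n
    show ‖PowerSeries.coeff n (PowerSeries.mk (tcoef fun z => (f z)⁻¹))‖ = _
    rw [PowerSeries.coeff_mk]
  rw [h2] at h1
  have h3 : K < (bigM f).toNNReal := by exact_mod_cast h1
  have h4 : (K : ENNReal) < bigM f := by
    rw [← ENNReal.coe_toNNReal hfin]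
    exact_mod_cast h3
  exact lt_irrefl _ (h4.trans hcon)

/-- **Answer to Q1**: `δ₀ = 1/2`; indeed `C(δ) < ∞` for every `δ > 1/2`, and `C(δ) = ∞` for
`0 < δ < 1/2`. -/
theorem result : delta0 = 1 / 2 ∧ (∀ δ : ℝ, 1 / 2 < δ → bigC δ < ⊤) ∧
    ∀ δ : ℝ, 0 < δ → δ < 1 / 2 → bigC δ = ⊤ := by
  refine ⟨?_, fun δ h => upper h, fun δ h0 h => lower h0 h⟩
  have hmem : ∀ δ : ℝ, δ ∈ {δ : ℝ | 0 < δ ∧ δ ≤ 1 ∧ bigC δ < ⊤} → 1 / 2 ≤ δ := by
    intro δ hδ
    by_contra h
    push Not at h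
    have := hδ.2.2
    rw [lower hδ.1 h] at this
    exact lt_irrefl _ this
  apply le_antisymm
  · apply le_of_forall_pos_le_add
    intro η hη
    refine (csInf_le ⟨1 / 2, fun δ hδ => hmem δ hδ⟩ (a := 1 / 2 + min η (1 / 2)) ⟨?_, ?_, ?_⟩).trans ?_
    · positivity
    · have := min_le_right η (1 / 2)
      linarith
    · apply upper
      have : 0 < min η (1 / 2) := by positivity
      linarith
    · have := min_le_left η (1 / 2)
      linarith
  · apply le_csInf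
    · exact ⟨1, one_pos, le_rfl, upper (by norm_num)⟩
    · exact hmem

end Pool.Agent.Results.MP_de3d06_an.HalfThreshold
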